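import Pool.Agent.R652.TF.Main
import Pool.Agent.R652.TF.Act
import Pool.Agent.R652.TF.Apd
import Pool.Agent.R652.TF.Aut
import Pool.Agent.R652.TF.Exp
import Pool.Agent.R652.TF.Frac
import Pool.Agent.R652.TF.Join
import Pool.Agent.R652.TF.List
import Pool.Agent.R652.TF.Pos
import Pool.Agent.R652.TF.Red
import Pool.Agent.R652.TF.Rel
import Pool.Agent.R652.TF.Seq
import Pool.Agent.R652.TF.Spl
import Pool.Agent.R652.TF.Test
import Pool.Agent.R652.TF.Trn
import Pool.Agent.R652.TF.Val
import Pool.Agent.R652.CA.App
import Pool.Agent.R652.CA.Bim1
import Pool.Agent.R652.CA.Bim2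
import Pool.Agent.R652.CA.Blk
import Pool.Agent.R652.CA.Comp
import Pool.Agent.R652.CA.R
import Pool.Agent.R652.CA.Tm
import Pool.Agent.R652.CA.Trim
import Pool.Agent.R652.CA.Uni
import Pool.Agent.R652.CA.Up
import Pool.Agent.R652.CA.Z

/-!
# MP_7161f1_al, Q1: Thompson's group `F` is Cayley one-tape linear-time computable

All definitions used in the statement are in `Pool.Agent.R652.TF.Defs` (`FG`, `rel1`, `rel2`,
`cmt`, `conv`, `Automatic`, `CayleyAutomaticFunctions`) and `Pool.Agent.R652.CA.Defs` (`Machine`,
`Cfg`, `LinTime`).
-/

namespace Pool.Agent.Results.MP_7161f1_al.OneTapeLinear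

open Pool.Agent.R652.CA Pool.Agent.R652.TF

/-- **Q1: yes.** Thompson's group `F` (`FG`, given by the standard finite presentation) is Cayley
position-faithful one-tape linear-time computable, with respect to every set `Sg` of elements
(in particular every finite set of semigroup generators; `Sg = F` is allowed too): the functions
are automatic, and computed in linear time by position-faithful one-tape Turing machines. -/
theorem result : ∀ Sg : Set FG, CayleyAutomaticFunctions FG Sg := by
  have hblk : StmBlk := blk_thm up down
  have hr : StmR := r_thm bim_map bim_comp bim_zip bim_ctx bim_pad hblk zero_thm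
  have happ : StmApp := app_thm bim_L b0_thm
  have htrim : StmTrim := trim_thm bim_map bim_comp bim_ctx bim_L bim_R
  have htrn : StmTrn := trn_thm seq_thm
  exact main_of bim_map (uni_comp bim_comp) (uni_ite bim_ite) hr happ htrim
    (act_thm hom_thm (frac_thm rel_thm) (pos_thm rel_thm)) list_inj list_spl list_joi tape_inj_c
    (split_thm htrn valid_c) (expand_thm htrn valid_c) (join_thm htrn valid_c)
    (reduce_thm htrn valid_c) (append_thm htrn valid_c) (drop_thm htrn valid_c)
    test_node test_red test_drop tm_thm auto_thm

end Pool.Agent.Results.MP_7161f1_al.OneTapeLinear
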